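import Pool.Agent.NPC.Dec
import Pool.Agent.H671R2.PolyAuto

/-!
# The local-ratio algorithm for GlobalECC

The variables are the hyperedges (deleting hyperedge `i`) and the pairs of a node and a color (paying
for color `c` at node `v`).  Two hyperedges of different colors with a common node give a constraint
on four variables.
-/

namespace Pool.Agent.Q329.GE

open Pool.Agent.NPC

abbrev Var := ℕ ⊕ (ℕ × ℕ)

abbrev Con := Var × Var × Var × Var

/-- The weight of a variable. -/
def wt (w : ℕ × ℕ) (v : Var) : ℕ := Sum.elim (fun _ => w.1) (fun _ => w.2) v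

def isIn (v : Var) (K : Con) : Bool := v = K.1 || (v = K.2.1 || (v = K.2.2.1 || v = K.2.2.2))

/-- What the log of the local-ratio method has used of a variable. -/
def used (st : List (Con × ℕ)) (v : Var) : ℕ :=
  (st.map fun p => if isIn v p.1 then p.2 else 0).sum

/-- The residual weight. -/
def res (w : ℕ × ℕ) (st : List (Con × ℕ)) (v : Var) : ℕ := wt w v - used st v

/-- The least residual weight in a constraint. -/
def mres (w : ℕ × ℕ) (st : List (Con × ℕ)) (K : Con) : ℕ :=
  min (min (res w st K.1) (res w st K.2.1)) (min (res w st K.2.2.1) (res w st K.2.2.2))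

/-- One step of the local-ratio method. -/
def step (w : ℕ × ℕ) (st : List (Con × ℕ)) (K : Con) : List (Con × ℕ) := (K, mres w st K) :: st

/-- The log of the local-ratio method. -/
def lr (w : ℕ × ℕ) (cs : List Con) : List (Con × ℕ) := cs.foldl (step w) []

/-- The constraints. -/
def cons (E : List (ℕ × List ℕ)) : List Con :=
  E.zipIdx.flatMap fun x => E.zipIdx.flatMap fun y => x.1.2.flatMap fun v =>
    if v ∈ y.1.2 ∧ x.1.1 ≠ y.1.1 then
      [(Sum.inl x.2, Sum.inl y.2, Sum.inr (v, x.1.1), Sum.inr (v, y.1.1))] else []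

/-- The hyperedges that survive. -/
def surv (w : ℕ × ℕ) (E : List (ℕ × List ℕ)) : List (ℕ × List ℕ) :=
  (E.zipIdx.filter fun x => decide (used (lr w (cons E)) (Sum.inl x.2) < w.1)).map Prod.fst

/-- Whether the color `c` is assigned to the node `v`. -/
def inS (S : List (ℕ × List ℕ)) (v c : ℕ) : Bool :=
  (S.any fun e => decide (e.1 = c) && decide (v ∈ e.2)) ||
    (decide (c = 0) && !(S.any fun e => decide (v ∈ e.2)))

/-- The number of mistakes. -/
def mist (E S : List (ℕ × List ℕ)) : ℕ := (E.filter fun e => !(e.2.all fun v => inS S v e.1)).length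

/-- The number of additional colors. -/
def extra (n q : List ℕ) (S : List (ℕ × List ℕ)) : ℕ :=
  (n.map fun v => (q.filter fun c => inS S v c).length - 1).sum

/-- The weights that are tried. -/
def cands (E : List (ℕ × List ℕ)) (b : ℕ) : List (ℕ × ℕ) :=
  (1, 4 * E.length + 1) :: (4 * b + 1, 1) :: (List.range E.length).map fun g => (b, g + 1)

/-- The candidates within the budget. -/
def cl (n q : List ℕ) (E : List (ℕ × List ℕ)) (b : ℕ) : List (List (ℕ × List ℕ)) :=
  ((cands E b).map fun w => surv w E).filter fun S => decide (extra n q S ≤ 8 * b)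

/-- The best candidate. -/
def best (n q : List ℕ) (E : List (ℕ × List ℕ)) (b : ℕ) : List (ℕ × List ℕ) :=
  (((cl n q E b).filter fun S => (cl n q E b).all fun S' => decide (mist E S ≤ mist E S')).head?).getD
    []

/-- The assignment that is written. -/
def out (n q : List ℕ) (E : List (ℕ × List ℕ)) (b : ℕ) : List (List ℕ) :=
  n.map fun v => q.filter fun c => inS (best n q E b) v c

/-! ### Polynomial time -/

variable {α : Type} [TEnc α]

theorem poly_wt {w : α → ℕ × ℕ} {v : α → Var} (hw : Poly w) (hv : Poly v) :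
    Poly (fun a => wt (w a) (v a)) := by
  unfold wt
  fun_prop

theorem poly_isIn {v : α → Var} {K : α → Con} (hv : Poly v) (hK : Poly K) :
    Poly (fun a => isIn (v a) (K a)) := by
  unfold isIn
  fun_prop

attribute [local fun_prop] poly_wt poly_isIn

theorem poly_used {st : α → List (Con × ℕ)} {v : α → Var} (hs : Poly st) (hv : Poly v) :
    Poly (fun a => used (st a) (v a)) := by
  unfold used
  fun_prop

attribute [local fun_prop] poly_used

theorem poly_res {w : α → ℕ × ℕ} {st : α → List (Con × ℕ)} {v : α → Var} (hw : Poly w)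
    (hs : Poly st) (hv : Poly v) : Poly (fun a => res (w a) (st a) (v a)) := by
  unfold res
  fun_prop

attribute [local fun_prop] poly_res

theorem poly_mres {w : α → ℕ × ℕ} {st : α → List (Con × ℕ)} {K : α → Con} (hw : Poly w)
    (hs : Poly st) (hK : Poly K) : Poly (fun a => mres (w a) (st a) (K a)) := by
  unfold mres
  fun_prop

attribute [local fun_prop] poly_mres

theorem mres_le (w : ℕ × ℕ) (st : List (Con × ℕ)) (K : Con) : sz (mres w st K) ≤ 2 * sz w := by
  have h1 : mres w st K ≤ wt w K.1 :=
    (min_le_left _ _).trans ((min_le_left _ _).trans (Nat.sub_le _ _))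
  have h2 := sz_nat_mono_le h1
  have h3 : sz (wt w K.1) ≤ sz w := by
    obtain ⟨a, b⟩ := w
    rcases K.1 with i | p
    · simp [wt]
      omega
    · simp [wt]
      omega
  omega

theorem sz_foldl_step (w : ℕ × ℕ) : ∀ (l : List Con) (st : List (Con × ℕ)),
    sz (l.foldl (step w) st) ≤ sz st + sz l * (2 * sz w + 2) := by
  intro l
  induction l with
  | nil => intro st; simp
  | cons K l ih =>
    intro st
    have h1 := ih (step w st K)
    have h2 : sz (step w st K) = sz K + sz (mres w st K) + 1 + sz st + 1 := by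
      simp [step]
    have h3 := mres_le w st K
    rw [List.foldl_cons]
    rw [h2] at h1
    rw [sz_list_cons]
    nlinarith [sz_pos K, sz_pos w]

theorem poly_lr {w : α → ℕ × ℕ} {cs : α → List Con} (hw : Poly w)
    (hs : Poly cs) : Poly (fun a => lr (w a) (cs a)) := by
  suffices h : Poly (fun p : (ℕ × ℕ) × List Con => lr p.1 p.2) from h.comp (hw.pair hs)
  unfold lr
  refine Poly.foldl (F := fun (p : (ℕ × ℕ) × List Con) st K => step p.1 st K)
    (Poly.snd Poly.id) (NPC.Poly.const _) ?_ (q := 2 * Polynomial.X ^ 2 + 2 * Polynomial.X + 1) ?_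
  · unfold step
    fun_prop
  · intro p k _
    refine (sz_foldl_step p.1 _ _).trans ?_
    have h1 := NPC.Poly.sz_take_le p.2 k
    have h2 : sz p = sz p.1 + sz p.2 + 1 := by simp [sz_pair p.1 p.2]
    simp only [Polynomial.eval_add, Polynomial.eval_mul, Polynomial.eval_pow, Polynomial.eval_X,
      Polynomial.eval_ofNat, Polynomial.eval_one, sz_list_nil]
    rw [h2]
    have h3 : sz (List.take k p.2) * (2 * sz p.1 + 2) ≤ sz p.2 * (2 * sz p.1 + 2) :=
      Nat.mul_le_mul_right _ h1
    nlinarith

attribute [local fun_prop] poly_lr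

theorem poly_cons {E : α → List (ℕ × List ℕ)} (hE : Poly E) : Poly (fun a => cons (E a)) := by
  unfold cons
  fun_prop

attribute [local fun_prop] poly_cons

theorem poly_surv {w : α → ℕ × ℕ} {E : α → List (ℕ × List ℕ)} (hw : Poly w) (hE : Poly E) :
    Poly (fun a => surv (w a) (E a)) := by
  unfold surv
  fun_prop

attribute [local fun_prop] poly_surv

theorem poly_inS {S : α → List (ℕ × List ℕ)} {v c : α → ℕ} (hS : Poly S) (hv : Poly v)
    (hc : Poly c) : Poly (fun a => inS (S a) (v a) (c a)) := by
  unfold inS
  fun_prop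

attribute [local fun_prop] poly_inS

theorem poly_mist {E S : α → List (ℕ × List ℕ)} (hE : Poly E) (hS : Poly S) :
    Poly (fun a => mist (E a) (S a)) := by
  unfold mist
  fun_prop

theorem poly_extra {n q : α → List ℕ} {S : α → List (ℕ × List ℕ)} (hn : Poly n) (hq : Poly q)
    (hS : Poly S) : Poly (fun a => extra (n a) (q a) (S a)) := by
  unfold extra
  fun_prop

theorem poly_cands {E : α → List (ℕ × List ℕ)} {b : α → ℕ} (hE : Poly E) (hb : Poly b) :
    Poly (fun a => cands (E a) (b a)) := by
  unfold cands
  have := Poly.range_length hE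
  fun_prop

attribute [local fun_prop] poly_mist poly_extra poly_cands

theorem poly_cl {n q : α → List ℕ} {E : α → List (ℕ × List ℕ)} {b : α → ℕ} (hn : Poly n)
    (hq : Poly q) (hE : Poly E) (hb : Poly b) : Poly (fun a => cl (n a) (q a) (E a) (b a)) := by
  unfold cl
  fun_prop

attribute [local fun_prop] poly_cl

theorem poly_best {n q : α → List ℕ} {E : α → List (ℕ × List ℕ)} {b : α → ℕ} (hn : Poly n)
    (hq : Poly q) (hE : Poly E) (hb : Poly b) : Poly (fun a => best (n a) (q a) (E a) (b a)) := by
  unfold best
  fun_prop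

attribute [local fun_prop] poly_best

theorem poly_out {n q : α → List ℕ} {E : α → List (ℕ × List ℕ)} {b : α → ℕ} (hn : Poly n)
    (hq : Poly q) (hE : Poly E) (hb : Poly b) : Poly (fun a => out (n a) (q a) (E a) (b a)) := by
  unfold out
  fun_prop

end Pool.Agent.Q329.GE
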