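import Pool.Agent.Q329.GE.LR

/-!
# Correctness of the algorithm for GlobalECC
-/

namespace Pool.Agent.Q329.GE

open Pool.Agent.NPC

variable {E : List (ℕ × List ℕ)} {w : ℕ × ℕ}

theorem mem_cons_iff {K : Con} : K ∈ cons E ↔ ∃ x ∈ E.zipIdx, ∃ y ∈ E.zipIdx, ∃ v ∈ x.1.2,
    v ∈ y.1.2 ∧ x.1.1 ≠ y.1.1 ∧
      K = (Sum.inl x.2, Sum.inl y.2, Sum.inr (v, x.1.1), Sum.inr (v, y.1.1)) := by
  unfold cons
  simp only [List.mem_flatMap]
  constructor
  · rintro ⟨x, hx, y, hy, v, hv, hK⟩
    split_ifs at hK with h
    · exact ⟨x, hx, y, hy, v, hv, h.1, h.2, by simpa using hK⟩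
    · simp at hK
  · rintro ⟨x, hx, y, hy, v, hv, h1, h2, hK⟩
    refine ⟨x, hx, y, hy, v, hv, ?_⟩
    rw [if_pos ⟨h1, h2⟩]
    simpa using hK

theorem mem_surv {e : ℕ × List ℕ} : e ∈ surv w E ↔ ∃ i, (e, i) ∈ E.zipIdx ∧
    used (lr w (cons E)) (Sum.inl i) < w.1 := by
  unfold surv
  rw [List.mem_map]
  constructor
  · rintro ⟨x, hx, rfl⟩
    rw [List.mem_filter] at hx
    exact ⟨x.2, hx.1, by simpa using hx.2⟩
  · rintro ⟨i, h1, h2⟩
    refine ⟨(e, i), ?_, rfl⟩
    rw [List.mem_filter]
    exact ⟨h1, by simpa using h2⟩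

theorem inS_iff {S : List (ℕ × List ℕ)} {v c : ℕ} : inS S v c = true ↔
    (∃ e ∈ S, e.1 = c ∧ v ∈ e.2) ∨ (c = 0 ∧ ∀ e ∈ S, v ∉ e.2) := by
  unfold inS
  simp

theorem length_filter_zipIdx (p : ℕ × List ℕ → Bool) :
    (E.zipIdx.filter fun x => p x.1).length = (E.filter p).length := by
  have h : E.filter p = (E.zipIdx.filter fun x => p x.1).map Prod.fst := by
    conv_lhs => rw [← List.zipIdx_map_fst 0 E]
    rw [List.filter_map]
    rfl
  rw [h, List.length_map]

/-- The deleted hyperedges. -/
def dead (w : ℕ × ℕ) (E : List (ℕ × List ℕ)) : Finset ℕ :=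
  ((E.zipIdx.filter fun x => decide (w.1 ≤ used (lr w (cons E)) (Sum.inl x.2))).map
    Prod.snd).toFinset

theorem mist_le_dead : mist E (surv w E) ≤ (dead w E).card := by
  unfold mist dead
  rw [List.toFinset_card_of_nodup, List.length_map, ← length_filter_zipIdx]
  · rw [← List.countP_eq_length_filter, ← List.countP_eq_length_filter]
    refine List.countP_mono_left fun x hx h => ?_
    by_contra hc
    have h1 : used (lr w (cons E)) (Sum.inl x.2) < w.1 := by simpa using hc
    have h2 : x.1 ∈ surv w E := mem_surv.2 ⟨x.2, hx, h1⟩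
    have h3 : (x.1.2.all fun v => inS (surv w E) v x.1.1) = true := by
      rw [List.all_eq_true]
      intro v hv
      exact inS_iff.2 (Or.inl ⟨_, h2, rfl, hv⟩)
    rw [h3] at h
    simp at h
  · have h1 : (E.zipIdx.map Prod.snd).Nodup := by
      rw [List.zipIdx_map_snd]
      exact List.nodup_range'
    exact h1.sublist (List.Sublist.map _ List.filter_sublist)

/-- The colors paid for at a node. -/
def paid (w : ℕ × ℕ) (E : List (ℕ × List ℕ)) (q v : ℕ) : Finset ℕ :=
  (Finset.range q).filter fun c => w.2 ≤ used (lr w (cons E)) (Sum.inr (v, c))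

theorem card_le_paid (q v : ℕ) :
    ((Finset.range q).filter fun c => inS (surv w E) v c = true).card ≤ (paid w E q v).card + 1 := by
  have h : (((Finset.range q).filter fun c => inS (surv w E) v c = true) \ paid w E q v).card ≤ 1 := by
    rw [Finset.card_le_one]
    intro c hc c' hc'
    rw [Finset.mem_sdiff, Finset.mem_filter, inS_iff, Finset.mem_range] at hc hc'
    by_contra hne
    obtain ⟨⟨hcq, hc⟩, hc2⟩ := hc
    obtain ⟨⟨hcq', hc'⟩, hc2'⟩ := hc'
    rcases hc with ⟨e, he, rfl, hv⟩ | ⟨rfl, h0⟩
    · rcases hc' with ⟨e', he', rfl, hv'⟩ | ⟨rfl, h0⟩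
      · obtain ⟨i, hi, hi2⟩ := mem_surv.1 he
        obtain ⟨j, hj, hj2⟩ := mem_surv.1 he'
        have hK : (Sum.inl i, Sum.inl j, Sum.inr (v, e.1), Sum.inr (v, e'.1)) ∈ cons E :=
          mem_cons_iff.2 ⟨_, hi, _, hj, v, hv, hv', hne, rfl⟩
        obtain ⟨x, hx, hx2⟩ := exists_tight w (cons E) hK
        rw [isIn_iff] at hx
        rcases hx with h | h | h | h
        · subst h
          simp only [wt, Sum.elim_inl] at hx2
          omega
        · subst h
          simp only [wt, Sum.elim_inl] at hx2
          omega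
        · subst h
          simp only [wt, Sum.elim_inr] at hx2
          exact hc2 (by
            unfold paid
            rw [Finset.mem_filter, Finset.mem_range]
            exact ⟨hcq, hx2.ge⟩)
        · subst h
          simp only [wt, Sum.elim_inr] at hx2
          exact hc2' (by
            unfold paid
            rw [Finset.mem_filter, Finset.mem_range]
            exact ⟨hcq', hx2.ge⟩)
      · exact h0 e he hv
    · rcases hc' with ⟨e', he', rfl, hv'⟩ | ⟨rfl, h0'⟩
      · exact h0 e' he' hv'
      · exact hne rfl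
  have h2 := Finset.card_le_card_sdiff_add_card (s := (Finset.range q).filter fun c => inS (surv w E) v c = true) (t := paid w E q v)
  omega

theorem extra_eq (n q : ℕ) (S : List (ℕ × List ℕ)) :
    extra (List.range n) (List.range q) S =
      ∑ v ∈ Finset.range n, (((Finset.range q).filter fun c => inS S v c = true).card - 1) := by
  have h : ∀ v, ((Finset.range q).filter fun c => inS S v c = true).card =
      ((List.range q).filter fun c => inS S v c).length := by
    intro v
    have h1 : ((Finset.range q).filter fun c => inS S v c = true).card =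
      ((List.range q).filter fun c => decide (inS S v c = true)).length := rfl
    rw [h1]
    simp
  simp only [h]
  rfl

/-- All pairs paid for. -/
def allPaid (w : ℕ × ℕ) (E : List (ℕ × List ℕ)) (n q : ℕ) : Finset (ℕ × ℕ) :=
  (Finset.range n ×ˢ Finset.range q).filter fun p =>
    w.2 ≤ used (lr w (cons E)) (Sum.inr p)

theorem card_allPaid (n q : ℕ) :
    (allPaid w E n q).card = ∑ v ∈ Finset.range n, (paid w E q v).card := by
  unfold allPaid paid
  rw [Finset.card_filter, Finset.sum_product]
  exact Finset.sum_congr rfl fun v _ => by rw [Finset.card_filter]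

theorem extra_le (n q : ℕ) :
    extra (List.range n) (List.range q) (surv w E) ≤ (allPaid w E n q).card := by
  rw [extra_eq, card_allPaid]
  refine Finset.sum_le_sum fun v _ => ?_
  have := card_le_paid (w := w) (E := E) q v
  omega

/-- The number of mistakes of an assignment. -/
def mistF (E : List (ℕ × List ℕ)) (F : ℕ → Finset ℕ) : ℕ :=
  (E.filter fun e => !(e.2.all fun v => decide (e.1 ∈ F v))).length

theorem main_bound (n q : ℕ) (hE : ∀ e ∈ E, ∀ v ∈ e.2, v < n)
    (F : ℕ → Finset ℕ) (hF : ∀ v < n, (F v).Nonempty) :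
    w.1 * mist E (surv w E) + w.2 * extra (List.range n) (List.range q) (surv w E) ≤
      4 * (w.1 * mistF E F + w.2 * ∑ v ∈ Finset.range n, ((F v).card - 1)) := by
  have hg : ∀ v, ∃ g, v < n → g ∈ F v := by
    intro v
    by_cases hv : v < n
    · obtain ⟨g, hg⟩ := hF v hv
      exact ⟨g, fun _ => hg⟩
    · exact ⟨0, fun h => absurd h hv⟩
  choose g hg using hg
  set D : Finset ℕ := ((E.zipIdx.filter fun x =>
    !(x.1.2.all fun v => decide (x.1.1 ∈ F v))).map Prod.snd).toFinset with hD
  set P : Finset (ℕ × ℕ) := (Finset.range n).biUnion fun v =>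
    ((F v).erase (g v)).image fun c => (v, c) with hP
  have hDc : D.card ≤ mistF E F := by
    refine (List.toFinset_card_le _).trans ?_
    rw [List.length_map]
    unfold mistF
    rw [← length_filter_zipIdx]
  have hPc : P.card ≤ ∑ v ∈ Finset.range n, ((F v).card - 1) := by
    refine Finset.card_biUnion_le.trans (Finset.sum_le_sum fun v hv => ?_)
    refine Finset.card_image_le.trans ?_
    rw [Finset.card_erase_of_mem (hg v (Finset.mem_range.1 hv))]
  have h := lr_bound' w (cons E) (dead w E) D (allPaid w E n q) P (by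
    intro i hi
    unfold dead at hi
    rw [List.mem_toFinset, List.mem_map] at hi
    obtain ⟨x, hx, rfl⟩ := hi
    rw [List.mem_filter] at hx
    simpa using hx.2) (by
    intro p hp
    unfold allPaid at hp
    exact (Finset.mem_filter.1 hp).2) (by
    intro K hK
    obtain ⟨x, hx, y, hy, v, hvx, hvy, hne, rfl⟩ := mem_cons_iff.1 hK
    have hxE : x.1 ∈ E := by
      have := List.mem_map_of_mem (f := Prod.fst) hx
      rwa [List.zipIdx_map_fst] at this
    have hvn : v < n := hE _ hxE v hvx
    have hmem : ∀ z ∈ E.zipIdx, v ∈ z.1.2 → z.2 ∈ D ∨ z.1.1 ∈ F v := by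
      intro z hz hvz
      by_cases h : z.1.1 ∈ F v
      · exact Or.inr h
      · left
        rw [hD, List.mem_toFinset, List.mem_map]
        refine ⟨z, ?_, rfl⟩
        rw [List.mem_filter]
        refine ⟨hz, ?_⟩
        rw [Bool.not_eq_true', List.all_eq_false]
        exact ⟨v, hvz, by simpa using h⟩
    rcases hmem x hx hvx with h1 | h1
    · exact Or.inl ⟨x.2, h1, by simp [isIn]⟩
    rcases hmem y hy hvy with h2 | h2
    · exact Or.inl ⟨y.2, h2, by simp [isIn]⟩
    right
    by_cases h3 : x.1.1 = g v
    · refine ⟨(v, y.1.1), ?_, by simp [isIn]⟩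
      rw [hP, Finset.mem_biUnion]
      refine ⟨v, Finset.mem_range.2 hvn, Finset.mem_image.2 ⟨y.1.1, ?_, rfl⟩⟩
      rw [Finset.mem_erase]
      exact ⟨fun h => hne (h3.trans h.symm), h2⟩
    · refine ⟨(v, x.1.1), ?_, by simp [isIn]⟩
      rw [hP, Finset.mem_biUnion]
      refine ⟨v, Finset.mem_range.2 hvn, Finset.mem_image.2 ⟨x.1.1, ?_, rfl⟩⟩
      rw [Finset.mem_erase]
      exact ⟨h3, h1⟩)
  have h1 := mist_le_dead (w := w) (E := E)
  have h2 := extra_le (w := w) (E := E) n q
  calc w.1 * mist E (surv w E) + w.2 * extra (List.range n) (List.range q) (surv w E)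
      ≤ w.1 * (dead w E).card + w.2 * (allPaid w E n q).card :=
        Nat.add_le_add (Nat.mul_le_mul_left _ h1) (Nat.mul_le_mul_left _ h2)
    _ ≤ _ := h
    _ ≤ _ := Nat.mul_le_mul_left _ (Nat.add_le_add (Nat.mul_le_mul_left _ hDc)
        (Nat.mul_le_mul_left _ hPc))

theorem exists_cand (n q b : ℕ) (hE : ∀ e ∈ E, ∀ v ∈ e.2, v < n)
    (F : ℕ → Finset ℕ) (hF : ∀ v < n, (F v).Nonempty)
    (hb : ∑ v ∈ Finset.range n, ((F v).card - 1) ≤ b) :
    ∃ S ∈ cl (List.range n) (List.range q) E b, mist E S ≤ 8 * mistF E F := by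
  have key : ∃ w ∈ cands E b, extra (List.range n) (List.range q) (surv w E) ≤ 8 * b ∧
      mist E (surv w E) ≤ 8 * mistF E F := by
    have hM : mistF E F ≤ E.length := List.length_filter_le _ _
    rcases Nat.eq_zero_or_pos b with hb0 | hb0
    · refine ⟨(1, 4 * E.length + 1), by simp [cands], ?_⟩
      have h := main_bound (E := E) (w := (1, 4 * E.length + 1)) n q hE F hF
      simp only at h
      subst hb0
      have h0 : ∑ v ∈ Finset.range n, ((F v).card - 1) = 0 := Nat.le_zero.1 hb
      rw [h0] at h
      have h1 : extra (List.range n) (List.range q) (surv (1, 4 * E.length + 1) E) = 0 := by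
        by_contra hc
        have : 1 ≤ extra (List.range n) (List.range q) (surv (1, 4 * E.length + 1) E) :=
          Nat.one_le_iff_ne_zero.2 hc
        nlinarith
      rw [h1] at h ⊢
      exact ⟨by omega, by omega⟩
    · rcases Nat.eq_zero_or_pos (mistF E F) with hM0 | hM0
      · refine ⟨(4 * b + 1, 1), by simp [cands], ?_⟩
        have h := main_bound (E := E) (w := (4 * b + 1, 1)) n q hE F hF
        simp only at h
        rw [hM0] at h ⊢
        have h1 : mist E (surv (4 * b + 1, 1) E) = 0 := by
          by_contra hc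
          have : 1 ≤ mist E (surv (4 * b + 1, 1) E) := Nat.one_le_iff_ne_zero.2 hc
          nlinarith
        rw [h1] at h ⊢
        exact ⟨by omega, by omega⟩
      · refine ⟨(b, mistF E F), ?_, ?_⟩
        · simp only [cands, List.mem_cons, List.mem_map, List.mem_range]
          right; right
          exact ⟨mistF E F - 1, by omega, by rw [Nat.sub_add_cancel hM0]⟩
        · have h := main_bound (E := E) (w := (b, mistF E F)) n q hE F hF
          simp only at h
          have h2 : mistF E F * ∑ v ∈ Finset.range n, ((F v).card - 1) ≤ mistF E F * b :=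
            Nat.mul_le_mul_left _ hb
          constructor
          · refine Nat.le_of_mul_le_mul_left (?_ : mistF E F * _ ≤ mistF E F * _) hM0
            nlinarith
          · refine Nat.le_of_mul_le_mul_left (?_ : b * _ ≤ b * _) hb0
            nlinarith
  obtain ⟨w, hw, h1, h2⟩ := key
  refine ⟨surv w E, ?_, h2⟩
  unfold cl
  rw [List.mem_filter]
  exact ⟨List.mem_map_of_mem hw, by simpa using h1⟩

theorem best_sub (n q b : ℕ) : ∀ e ∈ best (List.range n) (List.range q) E b, e ∈ E := by
  intro e he
  unfold best at he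
  cases hc : ((cl (List.range n) (List.range q) E b).filter fun S =>
      (cl (List.range n) (List.range q) E b).all fun S' => decide (mist E S ≤ mist E S')) with
  | nil => rw [hc] at he; simp at he
  | cons S l =>
    have h1 : S ∈ ((cl (List.range n) (List.range q) E b).filter fun S =>
      (cl (List.range n) (List.range q) E b).all fun S' => decide (mist E S ≤ mist E S')) := by
      rw [hc]; exact List.mem_cons_self
    rw [hc] at he
    simp only [List.head?_cons, Option.getD_some] at he
    have h2 := (List.mem_filter.1 h1).1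
    unfold cl at h2
    rw [List.mem_filter, List.mem_map] at h2
    obtain ⟨⟨w, _, rfl⟩, _⟩ := h2
    obtain ⟨i, hi, _⟩ := mem_surv.1 he
    have := List.mem_map_of_mem (f := Prod.fst) hi
    rwa [List.zipIdx_map_fst] at this

theorem best_spec (n q b : ℕ) (hE : ∀ e ∈ E, ∀ v ∈ e.2, v < n) :
    extra (List.range n) (List.range q) (best (List.range n) (List.range q) E b) ≤ 8 * b ∧
    ∀ F : ℕ → Finset ℕ, (∀ v < n, (F v).Nonempty) →
      ∑ v ∈ Finset.range n, ((F v).card - 1) ≤ b →
      mist E (best (List.range n) (List.range q) E b) ≤ 8 * mistF E F := by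
  set L := cl (List.range n) (List.range q) E b with hL
  have hne : L ≠ [] := by
    obtain ⟨S, hS, _⟩ := exists_cand (E := E) n q b hE (fun _ => {0}) (fun _ _ => by simp) (by simp)
    exact List.ne_nil_of_mem hS
  obtain ⟨S0, hS0, hmin⟩ := L.toFinset.exists_min_image (fun S => mist E S)
    (by rwa [List.toFinset_nonempty_iff])
  simp only [List.mem_toFinset] at hS0 hmin
  have hb : ∃ S ∈ L, best (List.range n) (List.range q) E b = S ∧
      ∀ S' ∈ L, mist E S ≤ mist E S' := by
    have hmem : S0 ∈ L.filter fun S => L.all fun S' => decide (mist E S ≤ mist E S') := by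
      rw [List.mem_filter]
      exact ⟨hS0, by simpa using hmin⟩
    cases hc : L.filter fun S => L.all fun S' => decide (mist E S ≤ mist E S') with
    | nil => rw [hc] at hmem; simp at hmem
    | cons S l =>
      have h1 : S ∈ L.filter fun S => L.all fun S' => decide (mist E S ≤ mist E S') := by
        rw [hc]; exact List.mem_cons_self
      rw [List.mem_filter] at h1
      refine ⟨S, h1.1, ?_, by simpa using h1.2⟩
      unfold best
      rw [← hL, hc]
      rfl
  obtain ⟨S, hS, hbS, hS2⟩ := hb
  rw [hbS]
  constructor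
  · rw [hL] at hS
    unfold cl at hS
    rw [List.mem_filter] at hS
    simpa using hS.2
  · intro F hF hFb
    obtain ⟨S', hS', h⟩ := exists_cand (E := E) n q b hE F hF hFb
    exact (hS2 S' hS').trans h

end Pool.Agent.Q329.GE
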