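import Pool.Agent.NPC.Defs

/-!
# GlobalECC: definitions
-/

namespace Pool.Agent.Q329.GE

open Pool.Agent.NPC

/-- An instance of GlobalECC: the nodes are `0, ..., n - 1`, the colors `0, ..., q - 1`, a hyperedge
is given by its color and the list of its nodes, and `b` is the budget. -/
structure Inst where
  n : ℕ
  q : ℕ
  E : List (Fin q × List (Fin n))
  b : ℕ

/-- An assignment of sets of colors to the nodes. -/
abbrev Inst.Sol (I : Inst) : Type := Fin I.n → Finset (Fin I.q)

/-- The number of mistakes: hyperedges whose color is missing at one of their nodes. -/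
def Inst.mistakes (I : Inst) (S : I.Sol) : ℕ :=
  (I.E.filter fun e => decide (¬ ∀ v ∈ e.2, e.1 ∈ S v)).length

/-- The assignment gives every node a color, and pays for at most `m` further colors in all. -/
def Inst.Feasible (I : Inst) (m : ℕ) (S : I.Sol) : Prop :=
  (∀ v, (S v).Nonempty) ∧ ∑ v, ((S v).card - 1) ≤ m

/-- The bit string of an instance: the numbers of nodes and colors in unary, the hyperedges with
their colors, the budget in binary. -/
def Inst.code (I : Inst) : List Bool :=
  bits (List.replicate I.n (), List.replicate I.q (),
    I.E.map (fun e => (Fin.val e.1, e.2.map Fin.val)), I.b)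

/-- The bit string of an assignment: for every node the list of its colors. -/
def Inst.solCode (I : Inst) (S : I.Sol) : List Bool :=
  bits (List.ofFn fun v => ((List.finRange I.q).filter fun c => decide (c ∈ S v)).map Fin.val)

/-- A polynomial-time bicriteria `(α, β)`-approximation for GlobalECC, for all instances in which there
is a color if there is a node (otherwise there is no assignment at all). -/
def Bicriteria (α β : ℝ) (A : List Bool → List Bool) : Prop :=
  PolyTime A ∧ ∀ I : Inst, (0 < I.n → 0 < I.q) → ∃ S : I.Sol, A I.code = I.solCode S ∧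
    (∀ v, (S v).Nonempty) ∧ ((∑ v, ((S v).card - 1) : ℕ) : ℝ) ≤ β * I.b ∧
    ∀ S' : I.Sol, I.Feasible I.b S' → (I.mistakes S : ℝ) ≤ α * I.mistakes S'

end Pool.Agent.Q329.GE
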