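import Pool.Agent.Q329.GE.Alg

/-!
# Correctness of the local-ratio method
-/

namespace Pool.Agent.Q329.GE

open Pool.Agent.NPC

/-- the invariant -/
def Good (w : ℕ × ℕ) (st : List (Con × ℕ)) : Prop :=
  (∀ v, used st v ≤ wt w v) ∧ ∀ p ∈ st, ∃ v, isIn v p.1 = true ∧ used st v = wt w v

theorem used_cons (p : Con × ℕ) (st : List (Con × ℕ)) (v : Var) :
    used (p :: st) v = (if isIn v p.1 then p.2 else 0) + used st v := by
  simp [used]

theorem isIn_iff (v : Var) (K : Con) :
    isIn v K = true ↔ v = K.1 ∨ v = K.2.1 ∨ v = K.2.2.1 ∨ v = K.2.2.2 := by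
  simp [isIn]

theorem mres_le_res {w : ℕ × ℕ} {st : List (Con × ℕ)} {K : Con} {v : Var} (h : isIn v K = true) :
    mres w st K ≤ res w st v := by
  rw [isIn_iff] at h
  unfold mres
  rcases h with h | h | h | h <;> subst h <;> simp

theorem exists_mres (w : ℕ × ℕ) (st : List (Con × ℕ)) (K : Con) :
    ∃ v, isIn v K = true ∧ mres w st K = res w st v := by
  have key : mres w st K = res w st K.1 ∨ mres w st K = res w st K.2.1 ∨
      mres w st K = res w st K.2.2.1 ∨ mres w st K = res w st K.2.2.2 := by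
    unfold mres
    omega
  rcases key with h | h | h | h
  · exact ⟨_, (isIn_iff _ _).2 (Or.inl rfl), h⟩
  · exact ⟨_, (isIn_iff _ _).2 (Or.inr (Or.inl rfl)), h⟩
  · exact ⟨_, (isIn_iff _ _).2 (Or.inr (Or.inr (Or.inl rfl))), h⟩
  · exact ⟨_, (isIn_iff _ _).2 (Or.inr (Or.inr (Or.inr rfl))), h⟩

theorem Good.step {w : ℕ × ℕ} {st : List (Con × ℕ)} (h : Good w st) (K : Con) :
    Good w (step w st K) := by
  have h1 : ∀ v, used (GE.step w st K) v ≤ wt w v := by
    intro v
    unfold GE.step
    rw [used_cons]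
    have h2 := h.1 v
    by_cases hv : isIn v K = true
    · have h3 := mres_le_res (w := w) (st := st) hv
      simp only [hv, if_true]
      unfold res at h3
      omega
    · simp only [hv]
      simpa using h2
  refine ⟨h1, ?_⟩
  intro p hp
  unfold GE.step at hp
  rw [List.mem_cons] at hp
  rcases hp with hp | hp
  · subst hp
    obtain ⟨v, hv, hm⟩ := exists_mres w st K
    refine ⟨v, hv, ?_⟩
    unfold GE.step
    rw [used_cons]
    have h2 := h.1 v
    simp only [hv, if_true]
    unfold res at hm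
    omega
  · obtain ⟨v, hv, hm⟩ := h.2 p hp
    refine ⟨v, hv, le_antisymm (h1 v) ?_⟩
    unfold GE.step
    rw [used_cons]
    omega

theorem Good.foldl {w : ℕ × ℕ} : ∀ (l : List Con) (st : List (Con × ℕ)), Good w st →
    Good w (l.foldl (GE.step w) st)
  | [], _, h => h
  | K :: l, _, h => Good.foldl l _ (h.step K)

theorem good_lr (w : ℕ × ℕ) (cs : List Con) : Good w (lr w cs) :=
  Good.foldl _ _ ⟨fun v => by simp [used], fun p hp => by simp at hp⟩

theorem map_foldl_step (w : ℕ × ℕ) : ∀ (l : List Con) (st : List (Con × ℕ)),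
    (l.foldl (GE.step w) st).map Prod.fst = l.reverse ++ st.map Prod.fst
  | [], _ => by simp
  | K :: l, st => by
    rw [List.foldl_cons, map_foldl_step w l]
    simp [GE.step]

theorem mem_lr {w : ℕ × ℕ} {cs : List Con} {K : Con} :
    (∃ m, (K, m) ∈ lr w cs) ↔ K ∈ cs := by
  have h := map_foldl_step w cs []
  have h2 : K ∈ (lr w cs).map Prod.fst ↔ K ∈ cs := by
    unfold lr
    rw [h]
    simp
  rw [← h2]
  simp

/-- what is used is at most four times the total -/
theorem sum_used_le (A : Finset Var) (st : List (Con × ℕ)) :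
    ∑ v ∈ A, used st v ≤ 4 * (st.map Prod.snd).sum := by
  induction st with
  | nil => simp [used]
  | cons p st ih =>
    simp only [used_cons]
    rw [Finset.sum_add_distrib, List.map_cons, List.sum_cons, mul_add]
    refine Nat.add_le_add ?_ ih
    rw [← Finset.sum_filter, Finset.sum_const, smul_eq_mul]
    refine Nat.mul_le_mul_right _ ?_
    refine (Finset.card_le_card (t := {p.1.1, p.1.2.1, p.1.2.2.1, p.1.2.2.2}) ?_).trans
      Finset.card_le_four
    intro v hv
    rw [Finset.mem_filter, isIn_iff] at hv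
    simpa using hv.2

/-- the total is at most what is used of a cover -/
theorem le_sum_used (F : Finset Var) (st : List (Con × ℕ))
    (h : ∀ p ∈ st, ∃ v ∈ F, isIn v p.1 = true) :
    (st.map Prod.snd).sum ≤ ∑ v ∈ F, used st v := by
  induction st with
  | nil => simp
  | cons p st ih =>
    simp only [used_cons]
    rw [Finset.sum_add_distrib, List.map_cons, List.sum_cons]
    refine Nat.add_le_add ?_ (ih fun q hq => h q (List.mem_cons_of_mem _ hq))
    obtain ⟨v, hv, hv2⟩ := h p List.mem_cons_self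
    calc p.2 = if isIn v p.1 then p.2 else 0 := by simp [hv2]
      _ ≤ _ := Finset.single_le_sum (f := fun v => if isIn v p.1 then p.2 else 0)
        (fun _ _ => Nat.zero_le _) hv

/-- The bound: tight variables cost at most four times a cover. -/
theorem lr_bound (w : ℕ × ℕ) (cs : List Con) (A F : Finset Var)
    (hA : ∀ v ∈ A, used (lr w cs) v = wt w v) (hF : ∀ K ∈ cs, ∃ v ∈ F, isIn v K = true) :
    ∑ v ∈ A, wt w v ≤ 4 * ∑ v ∈ F, wt w v := by
  calc ∑ v ∈ A, wt w v = ∑ v ∈ A, used (lr w cs) v :=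
        Finset.sum_congr rfl fun v hv => (hA v hv).symm
    _ ≤ 4 * ((lr w cs).map Prod.snd).sum := sum_used_le _ _
    _ ≤ 4 * ∑ v ∈ F, used (lr w cs) v := Nat.mul_le_mul_left _
        (le_sum_used _ _ fun p hp => hF p.1 (mem_lr.1 ⟨p.2, hp⟩))
    _ ≤ 4 * ∑ v ∈ F, wt w v := Nat.mul_le_mul_left _
        (Finset.sum_le_sum fun v _ => (good_lr w cs).1 v)

/-- Every constraint has a tight variable. -/
theorem exists_tight (w : ℕ × ℕ) (cs : List Con) {K : Con} (hK : K ∈ cs) :
    ∃ v, isIn v K = true ∧ used (lr w cs) v = wt w v := by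
  obtain ⟨m, hm⟩ := (mem_lr (w := w)).2 hK
  exact (good_lr w cs).2 _ hm

/-- The bound in terms of the numbers of variables of the two kinds. -/
theorem lr_bound' (w : ℕ × ℕ) (cs : List Con) (A D : Finset ℕ) (B P : Finset (ℕ × ℕ))
    (hA : ∀ i ∈ A, w.1 ≤ used (lr w cs) (Sum.inl i))
    (hB : ∀ p ∈ B, w.2 ≤ used (lr w cs) (Sum.inr p))
    (hF : ∀ K ∈ cs, (∃ i ∈ D, isIn (Sum.inl i) K = true) ∨ ∃ p ∈ P, isIn (Sum.inr p) K = true) :
    w.1 * A.card + w.2 * B.card ≤ 4 * (w.1 * D.card + w.2 * P.card) := by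
  have h := lr_bound w cs (A.disjSum B) (D.disjSum P) (by
    intro v hv
    refine le_antisymm ((good_lr w cs).1 v) ?_
    rcases v with i | p
    · exact hA i (by simpa using hv)
    · exact hB p (by simpa using hv)) (by
    intro K hK
    rcases hF K hK with ⟨i, hi, h⟩ | ⟨p, hp, h⟩
    · exact ⟨_, by simpa using hi, h⟩
    · exact ⟨_, by simpa using hp, h⟩)
  rw [Finset.sum_disjSum, Finset.sum_disjSum] at h
  simp only [wt, Sum.elim_inl, Sum.elim_inr, Finset.sum_const, smul_eq_mul] at h
  linarith [mul_comm w.1 A.card, mul_comm w.2 B.card, mul_comm w.1 D.card, mul_comm w.2 P.card]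

end Pool.Agent.Q329.GE
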