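import Pool.Agent.Q329.GE.Defs
import Pool.Agent.Q329.GE.Corr

/-!
# GlobalECC has a constant-constant bicriteria approximation
-/

namespace Pool.Agent.Q329.GE

open Pool.Agent.NPC

theorem range_map {β : Type} (n : ℕ) (g : ℕ → β) :
    (List.range n).map g = List.ofFn fun v : Fin n => g v := by
  rw [List.ofFn_eq_map, ← List.map_coe_finRange_eq_range, List.map_map]
  rfl

theorem range_filter (q : ℕ) (P : ℕ → Bool) :
    (List.range q).filter P = ((List.finRange q).filter fun c : Fin q => P c).map
      Fin.val := by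
  rw [← List.map_coe_finRange_eq_range, List.filter_map]
  rfl

/-- The hyperedges as lists of numbers. -/
def Inst.E' (I : Inst) : List (ℕ × List ℕ) :=
  I.E.map (fun e => (Fin.val e.1, e.2.map Fin.val))

theorem Inst.E'_lt (I : Inst) : ∀ e ∈ I.E', e.1 < I.q ∧ ∀ v ∈ e.2, v < I.n := by
  intro e he
  unfold Inst.E' at he
  rw [List.mem_map] at he
  obtain ⟨x, _, rfl⟩ := he
  refine ⟨x.1.2, fun v hv => ?_⟩
  rw [List.mem_map] at hv
  obtain ⟨y, _, rfl⟩ := hv
  exact y.2

/-- The data of an instance, as decoded by the algorithm. -/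
abbrev Data := List Unit × List Unit × List (ℕ × List ℕ) × ℕ

/-- The algorithm on decoded data. -/
def alg (d : Data) : List (List ℕ) :=
  out (List.range d.1.length) (List.range d.2.1.length) d.2.2.1 d.2.2.2

theorem poly_alg : Poly alg := by
  unfold alg
  refine poly_out ?_ ?_ ?_ ?_
  · exact Poly.range_length (Poly.fst Poly.id)
  · exact Poly.range_length (Poly.fst (Poly.snd Poly.id))
  · fun_prop
  · fun_prop

theorem exists_algo : ∃ A : List Bool → List Bool, PolyTime A ∧
    ∀ d : Data, A (bits d) = bits (alg d) := by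
  refine ⟨_, polyTime_opt (Poly.optMap (o := unbits Data) (f := fun _ a => alg a) poly_unbits
    (poly_alg.comp (Poly.snd Poly.id))), fun d => ?_⟩
  simp [unbits_bits]

/-- The best assignment found. -/
def Inst.sol (I : Inst) : I.Sol := fun v =>
  Finset.univ.filter fun c =>
    inS (best (List.range I.n) (List.range I.q) I.E' I.b) v c = true

theorem algo_code (I : Inst) {A : List Bool → List Bool}
    (hA : ∀ d : Data, A (bits d) = bits (alg d)) : A I.code = I.solCode I.sol := by
  unfold Inst.code
  rw [hA]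
  unfold Inst.solCode alg out
  congr 1
  simp only [List.length_replicate]
  rw [range_map]
  congr 1
  funext v
  rw [range_filter]
  congr 1
  refine List.filter_congr fun c _ => ?_
  have h : c ∈ I.sol v ↔
      inS (best (List.range I.n) (List.range I.q) I.E' I.b) v c = true := by
    unfold Inst.sol
    rw [Finset.mem_filter]
    exact ⟨fun h => h.2, fun h => ⟨Finset.mem_univ _, h⟩⟩
  rw [Bool.eq_iff_iff, decide_eq_true_iff, h]
  rfl

theorem sol_nonempty (I : Inst) (hq' : 0 < I.n → 0 < I.q) (v : Fin I.n) :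
    (I.sol v).Nonempty := by
  have hq : 0 < I.q := hq' v.pos
  by_cases h : ∃ e ∈ best (List.range I.n) (List.range I.q) I.E' I.b, (v : ℕ) ∈ e.2
  · obtain ⟨e, he, hv⟩ := h
    refine ⟨⟨e.1, (I.E'_lt e (best_sub _ _ _ e he)).1⟩, ?_⟩
    unfold Inst.sol
    rw [Finset.mem_filter]
    exact ⟨Finset.mem_univ _, inS_iff.2 (Or.inl ⟨e, he, rfl, hv⟩)⟩
  · refine ⟨⟨0, hq⟩, ?_⟩
    unfold Inst.sol
    rw [Finset.mem_filter]
    push Not at h
    exact ⟨Finset.mem_univ _, inS_iff.2 (Or.inr ⟨rfl, h⟩)⟩

theorem extra_sol (I : Inst) : ∑ v, ((I.sol v).card - 1) =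
    extra (List.range I.n) (List.range I.q)
      (best (List.range I.n) (List.range I.q) I.E' I.b) := by
  rw [extra_eq, Finset.sum_range]
  refine Finset.sum_congr rfl fun v _ => ?_
  congr 1
  unfold Inst.sol
  rw [← Finset.card_map Fin.valEmbedding]
  congr 1
  ext c
  simp only [Finset.mem_map, Finset.mem_filter, Finset.mem_univ, true_and, Fin.valEmbedding_apply,
    Finset.mem_range]
  constructor
  · rintro ⟨a, ha, rfl⟩
    exact ⟨a.2, ha⟩
  · rintro ⟨h1, h2⟩
    exact ⟨⟨c, h1⟩, h2, rfl⟩

theorem mistakes_sol (I : Inst) : I.mistakes I.sol =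
    mist I.E' (best (List.range I.n) (List.range I.q) I.E' I.b) := by
  unfold Inst.mistakes mist
  generalize hS : best (List.range I.n) (List.range I.q) I.E' I.b = S
  unfold Inst.E'
  rw [List.filter_map, List.length_map]
  congr 1
  refine List.filter_congr fun e _ => ?_
  simp only [Inst.sol, hS, Finset.mem_filter, Finset.mem_univ, true_and, Function.comp_apply,
    List.all_map]
  rw [Bool.eq_iff_iff]
  simp

/-- An assignment as a function on numbers. -/
def Inst.toF (I : Inst) (S : I.Sol) (v : ℕ) : Finset ℕ :=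
  if h : v < I.n then (S ⟨v, h⟩).map Fin.valEmbedding else ∅

theorem toF_val (I : Inst) (S : I.Sol) (v : Fin I.n) : I.toF S v = (S v).map Fin.valEmbedding := by
  unfold Inst.toF
  rw [dif_pos v.2]

theorem mistF_toF (I : Inst) (S : I.Sol) : mistF I.E' (I.toF S) = I.mistakes S := by
  unfold Inst.mistakes mistF Inst.E'
  rw [List.filter_map, List.length_map]
  congr 1
  refine List.filter_congr fun e _ => ?_
  have h : ∀ v : Fin I.n, (e.1 : ℕ) ∈ I.toF S v ↔ e.1 ∈ S v := by
    intro v
    rw [toF_val]
    exact Finset.mem_map' (f := Fin.valEmbedding)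
  rw [Bool.eq_iff_iff]
  simp [h]

theorem bicriteria : ∃ A, Bicriteria 8 8 A := by
  obtain ⟨A, hA, hA2⟩ := exists_algo
  refine ⟨A, hA, fun I hq => ⟨I.sol, algo_code I hA2, sol_nonempty I hq, ?_, ?_⟩⟩
  · have h := (best_spec (E := I.E') I.n I.q I.b fun e he => (I.E'_lt e he).2).1
    rw [← extra_sol] at h
    exact_mod_cast h
  · intro S' hS'
    have h := (best_spec (E := I.E') I.n I.q I.b fun e he => (I.E'_lt e he).2).2 (I.toF S') (by
      intro v hv
      have := hS'.1 ⟨v, hv⟩
      unfold Inst.toF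
      rw [dif_pos hv]
      simpa using this) (by
      rw [Finset.sum_range]
      refine le_trans (le_of_eq ?_) hS'.2
      refine Finset.sum_congr rfl fun v _ => ?_
      rw [toF_val, Finset.card_map])
    rw [mistF_toF, ← mistakes_sol] at h
    exact_mod_cast h

end Pool.Agent.Q329.GE
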